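import Pool.Agent.Lib.MP_e6820d_co.Final
import Pool.Agent.Lib.MP_e6820d_co.UpFinal

/-!
MP_e6820d_co: `c_4(ℤ^n) = 12` for every `n ≥ 4` and `c_4(ℤ^ω) = 12`.

A set `C` in an abelian group `G` is `k`-centerpole if for every colouring of `G` with `k` colours
there are `c ∈ C` and an infinite set `S`, symmetric with respect to `c`, on which the colouring is
constant (`FourCP.Centerpole`); `c_k(G)` is the least cardinality of a `k`-centerpole subset of `G`
(`FourCP.centerNum`, with value `⊤` if there is none).

Both bounds are proved: the known upper bound `c_4(ℤ^4) ≤ 12` (a sandwich with twelve points) and the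
new lower bound `c_4(ℤ^n) ≥ 12` for all `n` (previously `8`).
-/

namespace Pool.Agent.Results.MP_e6820d_co.FourCenterpoleExact

open FourCP

/-- `c_4(ℤ^n) = 12` for every integer `n ≥ 4`, and `c_4(ℤ^ω) = 12`. -/
theorem result :
    (∀ n : ℕ, 4 ≤ n → centerNum 4 (Fin n → ℤ) = 12) ∧ centerNum 4 (ℕ →₀ ℤ) = 12 := by
  refine ⟨fun n hn => le_antisymm ?_ (twelve_le_centerNum n),
    le_antisymm ?_ (twelve_le_centerNum_finsupp ℕ)⟩
  · exact (centerNum_le_of_injective (extendHom hn) (extendHom_injective hn)).trans
      centerNum_four_le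
  · exact (centerNum_le_of_injective (finsuppHom 4) (finsuppHom_injective 4)).trans
      centerNum_four_le

end Pool.Agent.Results.MP_e6820d_co.FourCenterpoleExact
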